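import Mathlib

/-!
# Infinitely many `n` such that all `n - 2 ^ k` are squarefree

Let `h` be the product of the odd primes up to `y = 2 ^ a` and consider the odd multiples
`n = h (2 u + 1)`, `0 ≤ u < U = 2 h 4 ^ r`, where `r = a + 10`.  Then `n` is less than
`(2 h 2 ^ r) ^ 2 ≤ 2 ^ (4 y + 2 r)`, so there are at most `4 y + 2 r` exponents `k`.  No
`n - 2 ^ k`, `k ≥ 1`, is divisible by a prime `p ≤ y`.  For a prime `p > y` and `k` the number of
`u` such that `p ^ 2` divides `n - 2 ^ k` is at most `U / p ^ 2 + 1`, and `p < 2 h 2 ^ r`.  Hence the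
proportion of the bad `u` is at most `(4 y + 2 r) (∑ 1 / p ^ 2 + 2 ^ (- r))`.  The primes `p > y` are
prime to `210`, so the sum is at most `(48 / 210) / (y - 210)`, and `4 * 48 / 210 < 1`.
-/

set_option autoImplicit false

namespace Pool.Agent.Results.MP_fcd74d_nt.InfinitelyManyGood

open Finset

/-- the product of the odd primes up to `y` -/
def oddPrim (y : ℕ) : ℕ := ∏ p ∈ (range (y + 1)).filter (fun p => p.Prime ∧ p ≠ 2), p

lemma two_mul_oddPrim {y : ℕ} (hy : 2 ≤ y) : 2 * oddPrim y = primorial y := by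
  unfold oddPrim primorial
  have h : (range (y + 1)).filter (fun p => p.Prime ∧ p ≠ 2) =
      ((range (y + 1)).filter Nat.Prime).erase 2 := by
    ext p
    simp only [mem_filter, mem_erase, mem_range]
    tauto
  rw [h]
  exact mul_prod_erase _ (fun p => p) (by
    simp only [mem_filter, mem_range]
    exact ⟨by omega, Nat.prime_two⟩)

lemma dvd_oddPrim {y p : ℕ} (hp : p.Prime) (h2 : p ≠ 2) (hpy : p ≤ y) : p ∣ oddPrim y :=
  dvd_prod_of_mem (fun p => p) (by
    simp only [mem_filter, mem_range]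
    exact ⟨by omega, hp, h2⟩)

lemma of_dvd_oddPrim {y p : ℕ} (hp : p.Prime) (h : p ∣ oddPrim y) : p ≤ y ∧ p ≠ 2 := by
  unfold oddPrim at h
  rw [hp.prime.dvd_finsetProd_iff] at h
  obtain ⟨q, hq, hpq⟩ := h
  simp only [mem_filter, mem_range] at hq
  have := (Nat.prime_dvd_prime_iff_eq hp hq.2.1).1 hpq
  subst this
  exact ⟨by omega, hq.2.2⟩

lemma oddPrim_pos (y : ℕ) : 0 < oddPrim y :=
  prod_pos fun _ hp => (mem_filter.1 hp).2.1.pos

/-- the number of `u < U` for which `p ^ 2` divides `h (2 u + 1) - 2 ^ k` -/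
lemma card_bad (h U p k : ℕ) (hp : p.Prime) (hp2 : p ≠ 2) (hph : ¬ p ∣ h) :
    ((((range U).filter fun u => 2 ^ k < h * (2 * u + 1) ∧
      p * p ∣ h * (2 * u + 1) - 2 ^ k).card : ℕ) : ℝ) ≤ (U : ℝ) / (p : ℝ) ^ 2 + 1 := by
  set S := (range U).filter fun u => 2 ^ k < h * (2 * u + 1) ∧
      p * p ∣ h * (2 * u + 1) - 2 ^ k with hS
  have hpp : 0 < p * p := Nat.mul_pos hp.pos hp.pos
  rcases S.eq_empty_or_nonempty with h0 | ⟨u0, hu0⟩
  · rw [h0]
    simp only [card_empty, Nat.cast_zero]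
    positivity
  · have hsub : S ⊆ (range U).filter (fun u => u ≡ u0 [MOD p * p]) := by
      intro u hu
      rw [hS, mem_filter] at hu hu0
      rw [mem_filter]
      refine ⟨hu.1, ?_⟩
      have h1 : ((p * p : ℕ) : ℤ) ∣ ((h * (2 * u + 1) - 2 ^ k : ℕ) : ℤ) :=
        Int.natCast_dvd_natCast.2 hu.2.2
      have h2 : ((p * p : ℕ) : ℤ) ∣ ((h * (2 * u0 + 1) - 2 ^ k : ℕ) : ℤ) :=
        Int.natCast_dvd_natCast.2 hu0.2.2
      rw [Nat.cast_sub hu.2.1.le] at h1
      rw [Nat.cast_sub hu0.2.1.le] at h2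
      have h3 := dvd_sub h2 h1
      have h4 : ((h * (2 * u0 + 1) : ℕ) : ℤ) - ((2 ^ k : ℕ) : ℤ) -
          (((h * (2 * u + 1) : ℕ) : ℤ) - ((2 ^ k : ℕ) : ℤ)) =
          ((2 * h : ℕ) : ℤ) * ((u0 : ℤ) - u) := by
        push_cast
        ring
      rw [h4] at h3
      have hc : Nat.Coprime (p * p) (2 * h) := by
        have h5 : Nat.Coprime p (2 * h) := by
          rw [hp.coprime_iff_not_dvd, hp.dvd_mul]
          rintro (h6 | h6)
          · exact hp2 ((Nat.prime_dvd_prime_iff_eq hp Nat.prime_two).1 h6)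
          · exact hph h6
        exact Nat.Coprime.mul_left h5 h5
      have h5 : ((p * p : ℕ) : ℤ) ∣ ((u0 : ℤ) - u) :=
        IsCoprime.dvd_of_dvd_mul_left (Nat.isCoprime_iff_coprime.2 hc) h3
      exact (Nat.modEq_iff_dvd).2 h5
    have h1 : S.card ≤ U / (p * p) + 1 := by
      refine (card_le_card hsub).trans ?_
      rw [← Nat.count_eq_card_filter_range, Nat.count_modEq_card U hpp]
      split_ifs <;> omega
    have h2 : ((U / (p * p) : ℕ) : ℝ) ≤ (U : ℝ) / (p : ℝ) ^ 2 := by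
      have := @Nat.cast_div_le ℝ _ _ _ U (p * p)
      rw [sq]
      exact_mod_cast this
    calc (S.card : ℝ) ≤ ((U / (p * p) + 1 : ℕ) : ℝ) := by exact_mod_cast h1
      _ ≤ (U : ℝ) / (p : ℝ) ^ 2 + 1 := by
        push_cast
        linarith

lemma totient_210 : Nat.totient 210 = 48 := by
  have e : 210 = 2 * (3 * (5 * 7)) := by norm_num
  rw [e, Nat.totient_mul (by norm_num), Nat.totient_mul (by norm_num),
    Nat.totient_mul (by norm_num), Nat.totient_prime Nat.prime_two,
    Nat.totient_prime Nat.prime_three, Nat.totient_prime Nat.prime_five,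
    Nat.totient_prime (by norm_num)]

lemma sum_coprime (y : ℕ) (hy : 210 < y) (J : ℕ) :
    ∑ x ∈ (Ico (y + 1) (y + 1 + 210 * J)).filter (Nat.Coprime 210), (1 : ℝ) / (x : ℝ) ^ 2 ≤
      48 / 210 * (1 / ((y : ℝ) - 210) - 1 / ((y : ℝ) - 210 + 210 * J)) := by
  have hyR : (210 : ℝ) < y := by exact_mod_cast hy
  induction J with
  | zero => simp
  | succ J ih =>
    have hsplit : (Ico (y + 1) (y + 1 + 210 * (J + 1))).filter (Nat.Coprime 210) =
        (Ico (y + 1) (y + 1 + 210 * J)).filter (Nat.Coprime 210) ∪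
        (Ico (y + 1 + 210 * J) (y + 1 + 210 * J + 210)).filter (Nat.Coprime 210) := by
      have e : y + 1 + 210 * (J + 1) = y + 1 + 210 * J + 210 := by ring
      rw [← filter_union, Ico_union_Ico_eq_Ico (by omega) (by omega), e]
    rw [hsplit]
    have hdisj : Disjoint ((Ico (y + 1) (y + 1 + 210 * J)).filter (Nat.Coprime 210))
        ((Ico (y + 1 + 210 * J) (y + 1 + 210 * J + 210)).filter (Nat.Coprime 210)) :=
      disjoint_filter_filter (Ico_disjoint_Ico_consecutive _ _ _)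
    rw [sum_union hdisj]
    have hcard : ((Ico (y + 1 + 210 * J) (y + 1 + 210 * J + 210)).filter
        (Nat.Coprime 210)).card = 48 := by
      have h210 := Nat.filter_coprime_Ico_eq_totient 210 (y + 1 + 210 * J)
      rw [totient_210] at h210
      exact h210
    have hJ : (0 : ℝ) ≤ J := Nat.cast_nonneg J
    have h2 : ∑ x ∈ (Ico (y + 1 + 210 * J) (y + 1 + 210 * J + 210)).filter (Nat.Coprime 210),
        (1 : ℝ) / (x : ℝ) ^ 2 ≤ 48 * (1 / ((y : ℝ) + 210 * J) ^ 2) := by
      have h3 := Finset.sum_le_card_nsmul ((Ico (y + 1 + 210 * J)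
        (y + 1 + 210 * J + 210)).filter (Nat.Coprime 210)) (fun x => (1 : ℝ) / (x : ℝ) ^ 2)
        (1 / ((y : ℝ) + 210 * J) ^ 2) (fun x hx => by
          rw [mem_filter, mem_Ico] at hx
          have h4 : ((y + 1 + 210 * J : ℕ) : ℝ) ≤ x := by exact_mod_cast hx.1.1
          push_cast at h4
          apply one_div_le_one_div_of_le (by positivity)
          apply pow_le_pow_left₀ (by positivity)
          linarith)
      rw [hcard] at h3
      simpa [nsmul_eq_mul] using h3
    have hA : (0 : ℝ) < (y : ℝ) - 210 + 210 * J := by linarith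
    have hB : (0 : ℝ) < (y : ℝ) + 210 * J := by linarith
    have h3 : 48 * (1 / ((y : ℝ) + 210 * J) ^ 2) ≤
        48 / 210 * (1 / ((y : ℝ) - 210 + 210 * J) - 1 / ((y : ℝ) - 210 + 210 * (J + 1 : ℕ))) := by
      have e : (y : ℝ) - 210 + 210 * ((J + 1 : ℕ) : ℝ) = (y : ℝ) + 210 * J := by
        push_cast
        ring
      rw [e]
      have e2 : (48 : ℝ) / 210 * (1 / ((y : ℝ) - 210 + 210 * J) - 1 / ((y : ℝ) + 210 * J)) =
          48 * (1 / (((y : ℝ) - 210 + 210 * J) * ((y : ℝ) + 210 * J))) := by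
        field_simp
        ring
      rw [e2]
      apply mul_le_mul_of_nonneg_left _ (by norm_num)
      apply one_div_le_one_div_of_le (by positivity)
      rw [sq]
      apply mul_le_mul_of_nonneg_right _ hB.le
      linarith
    have h4 := add_le_add ih (h2.trans h3)
    refine h4.trans (le_of_eq ?_)
    ring

lemma sum_primes (y Z : ℕ) (hy : 210 < y) :
    ∑ p ∈ (Ico (y + 1) Z).filter Nat.Prime, (1 : ℝ) / (p : ℝ) ^ 2 ≤
      48 / 210 * (1 / ((y : ℝ) - 210)) := by
  have hyR : (210 : ℝ) < y := by exact_mod_cast hy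
  have h1 : (Ico (y + 1) Z).filter Nat.Prime ⊆
      (Ico (y + 1) (y + 1 + 210 * Z)).filter (Nat.Coprime 210) := by
    intro p hp
    rw [mem_filter, mem_Ico] at hp
    rw [mem_filter, mem_Ico]
    refine ⟨⟨hp.1.1, by omega⟩, ?_⟩
    rw [Nat.coprime_comm, hp.2.coprime_iff_not_dvd]
    intro h
    have := Nat.le_of_dvd (by norm_num) h
    omega
  refine (sum_le_sum_of_subset_of_nonneg h1 fun _ _ _ => by positivity).trans ?_
  refine (sum_coprime y hy Z).trans ?_
  apply mul_le_mul_of_nonneg_left _ (by norm_num)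
  have : (0 : ℝ) ≤ 1 / ((y : ℝ) - 210 + 210 * Z) := by
    apply div_nonneg zero_le_one
    have : (0 : ℝ) ≤ Z := Nat.cast_nonneg Z
    linarith
  linarith

/-- the main step -/
lemma exists_good (a : ℕ) (ha : 20 ≤ a) : ∃ u : ℕ, ∀ k : ℕ, 1 ≤ k →
    2 ^ k < oddPrim (2 ^ a) * (2 * u + 1) → Squarefree (oddPrim (2 ^ a) * (2 * u + 1) - 2 ^ k) := by
  by_contra hcon
  push Not at hcon
  set y : ℕ := 2 ^ a with hy
  set h : ℕ := oddPrim y with hh
  set r : ℕ := a + 10 with hr
  set U : ℕ := 2 * h * 4 ^ r with hU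
  set Z : ℕ := 2 * h * 2 ^ r with hZ
  have hhpos : 0 < h := oddPrim_pos y
  have hUpos : 0 < U := by positivity
  have hygt : 2 ^ 20 ≤ y := Nat.pow_le_pow_right (by norm_num) ha
  have hyhuge : 210 < y := lt_of_lt_of_le (by norm_num) hygt
  have h2h : 2 * h ≤ 4 ^ y := by
    rw [hh, two_mul_oddPrim (by omega)]
    exact primorial_le_four_pow y
  set K : Finset ℕ := Icc 1 (4 * y + 2 * r) with hK
  set P : Finset ℕ := (Ico (y + 1) Z).filter Nat.Prime with hP
  let bad : ℕ → ℕ → Finset ℕ := fun p k => (range U).filter fun u => 2 ^ k < h * (2 * u + 1) ∧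
      p * p ∣ h * (2 * u + 1) - 2 ^ k
  have hcover : range U ⊆ K.biUnion fun k => P.biUnion fun p => bad p k := by
    intro u hu
    rw [mem_range] at hu
    obtain ⟨k, hk1, hk2, hk3⟩ := hcon u
    rw [Nat.squarefree_iff_prime_squarefree] at hk3
    push Not at hk3
    obtain ⟨p, hp, hpd⟩ := hk3
    have hodd : ¬ 2 ∣ h * (2 * u + 1) := by
      rw [Nat.prime_two.dvd_mul]
      rintro (h1 | h1)
      · exact (of_dvd_oddPrim Nat.prime_two h1).2 rfl
      · omega
    have h2k : 2 ∣ 2 ^ k := dvd_pow_self 2 (by omega)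
    have hpdd : p ∣ h * (2 * u + 1) - 2 ^ k := (dvd_mul_right p p).trans hpd
    have hp2 : p ≠ 2 := by
      rintro rfl
      apply hodd
      have := (Nat.dvd_sub_iff_left hk2.le h2k).1 hpdd
      exact this
    have hpy : y + 1 ≤ p := by
      by_contra h1
      have h2 : p ∣ h := dvd_oddPrim hp hp2 (by omega)
      have h3 : p ∣ h * (2 * u + 1) := h2.mul_right _
      have h4 : p ∣ 2 ^ k := (Nat.dvd_sub_iff_right hk2.le h3).1 hpdd
      exact hp2 ((Nat.prime_dvd_prime_iff_eq hp Nat.prime_two).1 (hp.dvd_of_dvd_pow h4))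
    have hn : h * (2 * u + 1) < Z ^ 2 := by
      have h1 : 2 * u + 1 < 2 * U := by omega
      calc h * (2 * u + 1) < h * (2 * U) := Nat.mul_lt_mul_of_pos_left h1 hhpos
        _ = Z ^ 2 := by
          rw [hU, hZ]
          have : (4 : ℕ) ^ r = 2 ^ r * 2 ^ r := by
            rw [← mul_pow]
            norm_num
          rw [this]
          ring
    have hpZ : p < Z := by
      have h1 : p * p ≤ h * (2 * u + 1) - 2 ^ k := Nat.le_of_dvd (by omega) hpd
      have h2 : p ^ 2 < Z ^ 2 := by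
        rw [sq p]
        exact (h1.trans (Nat.sub_le _ _)).trans_lt hn
      exact lt_of_pow_lt_pow_left₀ 2 (Nat.zero_le _) h2
    have hkK : k ≤ 4 * y + 2 * r := by
      have h1 : Z ≤ 2 ^ (2 * y + r) := by
        have e : (2 : ℕ) ^ (2 * y + r) = 4 ^ y * 2 ^ r := by
          rw [pow_add, pow_mul]
          norm_num
        rw [hZ, e]
        exact Nat.mul_le_mul_right _ h2h
      have h2 : 2 ^ k < 2 ^ (4 * y + 2 * r) := by
        calc 2 ^ k < Z ^ 2 := hk2.trans hn
          _ ≤ (2 ^ (2 * y + r)) ^ 2 := Nat.pow_le_pow_left h1 2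
          _ = 2 ^ (4 * y + 2 * r) := by
            rw [← pow_mul]
            congr 1
            ring
      exact ((Nat.pow_lt_pow_iff_right (by norm_num)).1 h2).le
    rw [mem_biUnion]
    refine ⟨k, by rw [hK, mem_Icc]; exact ⟨hk1, hkK⟩, ?_⟩
    rw [mem_biUnion]
    refine ⟨p, by rw [hP, mem_filter, mem_Ico]; exact ⟨⟨hpy, hpZ⟩, hp⟩, ?_⟩
    simp only [bad, mem_filter, mem_range]
    exact ⟨hu, hk2, hpd⟩
  have hle : (U : ℝ) ≤ ∑ k ∈ K, ∑ p ∈ P, ((U : ℝ) / (p : ℝ) ^ 2 + 1) := by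
    have h1 := card_le_card hcover
    rw [card_range] at h1
    have h2 : (K.biUnion fun k => P.biUnion fun p => bad p k).card ≤
        ∑ k ∈ K, ∑ p ∈ P, (bad p k).card :=
      card_biUnion_le.trans (sum_le_sum fun k _ => card_biUnion_le)
    have h3 : (U : ℝ) ≤ ((∑ k ∈ K, ∑ p ∈ P, (bad p k).card : ℕ) : ℝ) := by
      exact_mod_cast h1.trans h2
    refine h3.trans ?_
    push_cast
    refine sum_le_sum fun k _ => sum_le_sum fun p hp => ?_
    rw [hP, mem_filter, mem_Ico] at hp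
    refine card_bad h U p k hp.2 (by omega) ?_
    intro h4
    have := (of_dvd_oddPrim hp.2 h4).1
    omega
  -- evaluate the sum
  have hKc : (K.card : ℝ) = 4 * (y : ℝ) + 2 * r := by
    rw [hK, Nat.card_Icc, Nat.add_sub_cancel]
    push_cast
    ring
  have hPc : (P.card : ℝ) ≤ Z := by
    have : P.card ≤ Z := by
      rw [hP]
      refine (card_filter_le _ _).trans ?_
      rw [Nat.card_Ico]
      omega
    exact_mod_cast this
  have hsum : ∑ p ∈ P, ((U : ℝ) / (p : ℝ) ^ 2 + 1) ≤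
      U * (48 / 210 * (1 / ((y : ℝ) - 210))) + Z := by
    rw [sum_add_distrib]
    have h1 : ∑ p ∈ P, (U : ℝ) / (p : ℝ) ^ 2 = U * ∑ p ∈ P, (1 : ℝ) / (p : ℝ) ^ 2 := by
      rw [mul_sum]
      refine sum_congr rfl fun p _ => ?_
      ring
    rw [h1]
    have h2 : ∑ p ∈ P, (1 : ℝ) = P.card := by simp
    rw [h2]
    have h3 := sum_primes y Z hyhuge
    have h4 : (0 : ℝ) ≤ U := Nat.cast_nonneg U
    have h5 := mul_le_mul_of_nonneg_left h3 h4
    linarith
  rw [sum_const, nsmul_eq_mul, hKc] at hle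
  have hUR : (0 : ℝ) < U := by exact_mod_cast hUpos
  -- `Z = U / 2 ^ r`
  have hZU : (Z : ℝ) = U / 2 ^ r := by
    rw [eq_div_iff (by positivity), hZ, hU]
    push_cast
    have : (4 : ℝ) ^ r = 2 ^ r * 2 ^ r := by
      rw [← mul_pow]
      norm_num
    rw [this]
    ring
  have hyR : (2 : ℝ) ^ 20 ≤ y := by exact_mod_cast hygt
  have h2r : (2 : ℝ) ^ r = 1024 * y := by
    rw [hr, hy, pow_add]
    push_cast
    norm_num
    ring
  have hrs : 2000 * (r : ℝ) ≤ y := by
    have : 2000 * r ≤ y := by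
      rw [hr, hy]
      clear_value y
      clear * - ha
      induction a, ha using Nat.le_induction with
      | base => norm_num
      | succ n hn ih =>
        rw [pow_succ]
        omega
    exact_mod_cast this
  have hfin : (U : ℝ) ≤ (4 * (y : ℝ) + 2 * r) *
      (U * (48 / 210 * (1 / ((y : ℝ) - 210))) + U / 2 ^ r) := by
    refine hle.trans ?_
    apply mul_le_mul_of_nonneg_left _ (by positivity)
    rw [← hZU]
    exact hsum
  have hfin2 : (1 : ℝ) ≤ (4 * (y : ℝ) + 2 * r) *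
      (48 / 210 * (1 / ((y : ℝ) - 210)) + 1 / (1024 * y)) := by
    rw [h2r] at hfin
    have e : (4 * (y : ℝ) + 2 * r) * (U * (48 / 210 * (1 / ((y : ℝ) - 210))) + U / (1024 * y)) =
        U * ((4 * (y : ℝ) + 2 * r) * (48 / 210 * (1 / ((y : ℝ) - 210)) + 1 / (1024 * y))) := by
      ring
    rw [e] at hfin
    by_contra h1
    push Not at h1
    have := mul_lt_mul_of_pos_left h1 hUR
    linarith
  have hy1 : (0 : ℝ) < (y : ℝ) - 210 := by
    have : (2 : ℝ) ^ 20 = 1048576 := by norm_num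
    linarith
  have hy0 : (0 : ℝ) < y := by linarith
  have hb1 : (4 * (y : ℝ) + 2 * r) ≤ 4.001 * y := by linarith
  have hb2 : 1 / ((y : ℝ) - 210) ≤ 1.001 / y := by
    rw [div_le_div_iff₀ hy1 hy0]
    have : (2 : ℝ) ^ 20 = 1048576 := by norm_num
    linarith
  have hb3 : 48 / 210 * (1 / ((y : ℝ) - 210)) + 1 / (1024 * y) ≤ 0.2299 / y := by
    have e : 1 / (1024 * (y : ℝ)) = (1 / 1024) / y := by
      field_simp
    rw [e]
    have h1 : 48 / 210 * (1 / ((y : ℝ) - 210)) ≤ 48 / 210 * (1.001 / y) :=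
      mul_le_mul_of_nonneg_left hb2 (by norm_num)
    have h2 : 48 / 210 * (1.001 / (y : ℝ)) + (1 / 1024) / y =
        (48 / 210 * 1.001 + 1 / 1024) / y := by
      ring
    have h3 : (48 / 210 * 1.001 + 1 / 1024) / (y : ℝ) ≤ 0.2299 / y := by
      apply div_le_div_of_nonneg_right _ hy0.le
      norm_num
    linarith
  have hb4 : (4 * (y : ℝ) + 2 * r) *
      (48 / 210 * (1 / ((y : ℝ) - 210)) + 1 / (1024 * y)) ≤ 4.001 * y * (0.2299 / y) := by
    apply mul_le_mul hb1 hb3
    · positivity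
    · positivity
  have hb5 : 4.001 * (y : ℝ) * (0.2299 / y) = 4.001 * 0.2299 := by
    field_simp
  rw [hb5] at hb4
  have hb6 := hfin2.trans hb4
  norm_num at hb6

/-- **There are infinitely many `n ≥ 3` such that `n - 2 ^ k` is squarefree for every `k ≥ 1` with
`2 ^ k < n`.** -/
theorem result :
    {n : ℕ | 3 ≤ n ∧ ∀ k : ℕ, 1 ≤ k → 2 ^ k < n → Squarefree (n - 2 ^ k)}.Infinite := by
  rw [Set.infinite_iff_exists_gt]
  intro N
  obtain ⟨q, hqN, hq⟩ := Nat.exists_infinite_primes (N + 3)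
  obtain ⟨u, hu⟩ := exists_good (q + 20) (by omega)
  refine ⟨oddPrim (2 ^ (q + 20)) * (2 * u + 1), ⟨?_, hu⟩, ?_⟩
  all_goals
    have h1 : q ∣ oddPrim (2 ^ (q + 20)) := dvd_oddPrim hq (by omega)
      ((Nat.lt_two_pow_self).le.trans (Nat.pow_le_pow_right (by norm_num) (by omega)))
    have h2 : q ≤ oddPrim (2 ^ (q + 20)) * (2 * u + 1) :=
      Nat.le_of_dvd (Nat.mul_pos (oddPrim_pos _) (by omega)) (h1.mul_right _)
    omega

end Pool.Agent.Results.MP_fcd74d_nt.InfinitelyManyGood
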